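import Pool.Agent.Lib.MP_349275_al.Main
import Pool.Agent.Lib.MP_349275_al.Exist

/-!
A graph `G` on six vertices such that every minimal generating set of the ideal `I_G` of relations
of the subalgebra `E_G` of the Fomin-Kirillov algebra `E_6` contains an element whose `S_6`-degree is
not an automorphism of its support.

The vertices are the elements of `ℤ/6`, the vertices of a hexagon.  The graph has the seven edges
`a = 03`, `b = 14`, `c = 25` (the long diagonals) and `p = 04`, `q = 15`, `s = 02`, `t = 13` (four of
the six short diagonals).  Let `w` be the rotation `i ↦ i + 1`.  The 576 words of length 7 and degree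
`w` in these letters form 24 classes up to commutations of letters, and the only other relation
between them is the alternating sum of one word of each class,

  `bsacspt + scpabsp + bcsptqc + bsptqbc + sptaqbc + qscpabs + sacspta + csptaqc + cqscpas +
   qbsacst + staqbct + qbcstqc - abcsptq - aqbcstq - taqbctq - cpabqsp - acsptaq - ptaqbcq -
   paqbcqs - bptqbcq - absptqb - pabqspb - asptaqb - astaqbt = 0`.

* This relation holds in `E_6`: it is the sum of 34 products `± u ρ v`, up to commutations and
  squares, where `ρ` is one of nine relations of length at most 4 in the letters of `G` and the
  further letter `d = 01`; see `Cert.lean`.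
* Let `φ` be the sum of the coefficients of the nine words of the class of `astaqbt`.  All of them
  begin with `a` and end with `t`.  The class of `astaqb` among the words of length 6, and that of
  `staqbt`, are detected by iterated braided derivations, that is by a representation of `E_6` on the
  functions on words; see `Fock.lean` and `Check.lean`.  So `φ` vanishes on `T_G^+ I_G + I_G T_G^+`,
  while it is `-1` on the relation above.
* Hence every minimal generating set contains an `r` with `φ(r) ≠ 0`.  It has length 7 and degree
  `w`, and its support contains the edge `13`, whose image `24` under `w` is not an edge of `G`.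

Minimal generating sets exist for every graph; see `Exist.lean`.
-/

set_option autoImplicit false

namespace Pool.Agent.Results.MP_349275_al.DegreeNotAutomorphism

open Pool.Agent.Lib.MP_349275_al

/-- The ideal `I_G` of the theta graph `G` with the edges `03, 14, 25, 04, 15, 02, 13` has minimal
generating sets, and every minimal generating set contains an element `r`, homogeneous of length `7`
and of `S_6`-degree the rotation `w : i ↦ i + 1` modulo `6`, such that `w` is not an automorphism of
the support of `r`. -/
theorem result :
    (∃ R : Set (T thetaGraph), IsMinimalGeneratingSet thetaGraph R) ∧
    ∀ R : Set (T thetaGraph), IsMinimalGeneratingSet thetaGraph R →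
      ∃ r ∈ R, IsHomogeneous thetaGraph 7 (finRotate 6) r ∧
        ¬ IsAutomorphism (finRotate 6) (supportGraph thetaGraph r) := by
  refine ⟨exists_minimalGeneratingSet thetaGraph, fun R hR => ?_⟩
  obtain ⟨hmin, hgen, -⟩ := hR
  obtain ⟨r, hr, hphi⟩ := exists_phi_ne R (fun r hr => (hmin r hr).1) hgen
  exact ⟨r, hr, bad_element r (hmin r hr).2.1 hphi⟩

end Pool.Agent.Results.MP_349275_al.DegreeNotAutomorphism
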